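import Pool.Agent.Q283.FG.Stm2
import Pool.Agent.Q198.FT.IRR

/-!
# Project FG: the operators of one curve generate all endomorphisms (with the sign)
-/

set_option autoImplicit false

namespace Pool.Agent.Q187.FG

open Finset
open Pool.Agent.Q283.FG
open Pool.Agent.Q283.FT (U2)
open Pool.Agent.Q7.LK
open Pool.Agent.Q198.FT (ex_dot dot_add')

theorem dot_add_left {f : ℕ} (φ φ' z : Fin f → ZMod 2) : dot (φ + φ') z = dot φ z + dot φ' z := by
  simp only [dot, Pi.add_apply, add_mul, sum_add_distrib]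

theorem ex_dot3 {f : ℕ} (a b c : Fin f → ZMod 2) (ha : a ≠ 0) (hab : a ≠ b) (hac : a ≠ c)
    (habc : a ≠ b + c) : ∃ φ : Fin f → ZMod 2, dot φ a = 1 ∧ dot φ b = 0 ∧ dot φ c = 0 := by
  have hz : ∀ z : ZMod 2, z = 0 ∨ z = 1 := by decide
  obtain ⟨φ, h1, h2⟩ := ex_dot a b ha hab
  rcases hz (dot φ c) with h3 | h3
  · exact ⟨φ, h1, h2, h3⟩
  obtain ⟨ψ, k1, k2⟩ := ex_dot a c ha hac
  rcases hz (dot ψ b) with k3 | k3
  · exact ⟨ψ, k1, k3, k2⟩
  obtain ⟨χ, l1, l2⟩ := ex_dot a (b + c) ha habc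
  rw [dot_add'] at l2
  rcases hz (dot χ b) with l3 | l3
  · refine ⟨χ, l1, l3, ?_⟩
    rwa [l3, zero_add] at l2
  · have l4 : dot χ c = 1 := by
      have : ∀ x y : ZMod 2, x + y = 0 → x = 1 → y = 1 := by decide
      exact this _ _ l2 l3
    refine ⟨φ + ψ + χ, ?_, ?_, ?_⟩
    · rw [dot_add_left, dot_add_left, h1, k1, l1]; decide
    · rw [dot_add_left, dot_add_left, h2, k3, l3]; decide
    · rw [dot_add_left, dot_add_left, h3, k2, l4]; decide

theorem irr : S_IRR := by
  intro f t₀ c w c12 c01 c02 cne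
  set S := Algebra.adjoin (ZMod 2)
    (Set.range fun φ : Fin f → ZMod 2 => (opS t₀ c w φ : Module.End (ZMod 2) U2)) with hS
  have hadd0 : ∀ x y : ZMod 2, x + y = 0 → x = y := by decide
  have hvadd0 : ∀ x y : Fin f → ZMod 2, x + y = 0 → x = y := fun x y h =>
    funext fun t => hadd0 _ _ (congrFun h t)
  have hdbl : ∀ x : Fin f → ZMod 2, x + x = 0 := fun x => funext fun t => by
    have : ∀ z : ZMod 2, z + z = 0 := by decide
    exact this _
  set A : Fin f → ZMod 2 := c 1 + c 2 with hA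
  set T : Fin f → ZMod 2 := Pi.single t₀ 1 with hT
  set B : Fin f → ZMod 2 := c 0 + c 2 + T with hB
  have hA0 : A ≠ 0 := fun h => c12 (hvadd0 _ _ h)
  have hB0 : B ≠ 0 := fun h => c02 (hvadd0 _ _ h)
  have hT0 : T ≠ 0 := fun h => by
    have := congrFun h t₀
    simp [hT] at this
  have hABT : A + B + T ≠ 0 := fun h => c01 (hvadd0 _ _ (by
    rw [← h, hA, hB]
    have h1 := hdbl (c 2)
    have h2 := hdbl T
    calc c 0 + c 1 = c 0 + c 1 + (c 2 + c 2) + (T + T) := by rw [h1, h2, add_zero, add_zero]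
      _ = _ := by ring))
  have hne : ¬ (B = T ∧ A = T) := fun h => cne ⟨hvadd0 _ _ (by
    have h1 : c 0 + c 2 + T + T = T + T := by rw [← hB, h.1]
    rwa [add_assoc, hdbl T, add_zero] at h1), h.2⟩
  have hsg : ∀ φ : Fin f → ZMod 2, dot φ T = φ t₀ := fun φ => by
    simp [dot, hT, Pi.single_apply]
  let E11 : Module.End (ZMod 2) U2 :=
    LinearMap.inl (ZMod 2) (ZMod 2) (ZMod 2) ∘ₗ LinearMap.fst (ZMod 2) (ZMod 2) (ZMod 2)
  let E12 : Module.End (ZMod 2) U2 :=
    LinearMap.inl (ZMod 2) (ZMod 2) (ZMod 2) ∘ₗ LinearMap.snd (ZMod 2) (ZMod 2) (ZMod 2)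
  let E21 : Module.End (ZMod 2) U2 :=
    LinearMap.inr (ZMod 2) (ZMod 2) (ZMod 2) ∘ₗ LinearMap.fst (ZMod 2) (ZMod 2) (ZMod 2)
  have key : ∀ φ : Fin f → ZMod 2,
      dot φ T • E11 + dot φ A • E12 + dot φ B • E21 ∈ S := by
    intro φ
    have e : dot φ T • E11 + dot φ A • E12 + dot φ B • E21 =
        opS t₀ c w φ + algebraMap (ZMod 2) (Module.End (ZMod 2) U2) (dot φ (c 2) + dot φ w) := by
      refine LinearMap.ext fun x => ?_
      obtain ⟨x, y⟩ := x
      rw [hA, hB, dot_add', dot_add', dot_add', hsg]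
      have hk : ∀ α β γ ω s x y : ZMod 2,
          (s * x + (β + α) * y, (γ + α + s) * x) =
          (α * (x + y) + β * y + ω * x + s * x + (α + ω) * x,
            α * (x + y) + γ * x + ω * y + s * x + (α + ω) * y) := by
        decide
      have h1 := hk (dot φ (c 2)) (dot φ (c 1)) (dot φ (c 0)) (dot φ w) (φ t₀) x y
      refine Eq.trans ?_ h1
      ext
      · simp [E11, E12, E21]
      · simp [E11, E12, E21]
    rw [e]
    exact S.add_mem (Algebra.subset_adjoin ⟨φ, rfl⟩) (S.algebraMap_mem _)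
  have p1 : E12 * E21 = E11 := by
    refine LinearMap.ext fun x => ?_
    ext <;> simp [E11, E12, E21]
  have p2 : E11 * E12 = E12 := by
    refine LinearMap.ext fun x => ?_
    ext <;> simp [E11, E12]
  have p3 : E21 * E11 = E21 := by
    refine LinearMap.ext fun x => ?_
    ext <;> simp [E11, E21]
  have p4 : E11 * E21 = 0 := by
    refine LinearMap.ext fun x => ?_
    ext <;> simp [E11, E21]
  have p5 : E12 * E11 = 0 := by
    refine LinearMap.ext fun x => ?_
    ext <;> simp [E11, E12]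
  have h2 : ∀ z : ZMod 2, z + z = 0 := by decide
  have h2E : ∀ X : Module.End (ZMod 2) U2, X + X = 0 := fun X => by
    refine LinearMap.ext fun x => ?_
    ext
    · exact h2 _
    · exact h2 _
  have hmem : E12 ∈ S ∧ E21 ∈ S := by
    by_cases hAB : A = B
    · -- `A = B`, `T ≠ A`
      have hAT : A ≠ T := fun h => hne ⟨hAB ▸ h, h⟩
      obtain ⟨φ, a1, a2⟩ := ex_dot A T hA0 hAT
      obtain ⟨ψ, b1, b2⟩ := ex_dot T A hT0 hAT.symm
      have m1 := key φ
      have m2 := key ψ
      rw [← hAB, a1, a2, zero_smul, one_smul, zero_add, one_smul] at m1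
      rw [← hAB, b1, b2, zero_smul, one_smul, add_zero, zero_smul, add_zero] at m2
      constructor
      · have h := S.mul_mem m2 m1
        rwa [mul_add, p2, p4, add_zero] at h
      · have h := S.mul_mem m1 m2
        rwa [add_mul, p5, p3, zero_add] at h
    · by_cases hAT : A = T
      · -- `A = T`, `B ≠ T`
        have hBT : B ≠ T := fun h => hne ⟨h, hAT⟩
        obtain ⟨φ, a1, a2⟩ := ex_dot B T hB0 hBT
        obtain ⟨ψ, b1, b2⟩ := ex_dot T B hT0 hBT.symm
        have m1 := key φ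
        have m2 := key ψ
        rw [hAT, a1, a2, zero_smul, one_smul, zero_smul, zero_add, zero_add] at m1
        rw [hAT, b1, b2, zero_smul, one_smul, one_smul, add_zero] at m2
        refine ⟨?_, m1⟩
        have h := S.mul_mem m2 m1
        rw [add_mul, p4, p1, zero_add] at h
        have h3 := S.add_mem h m2
        rwa [← add_assoc, h2E, zero_add] at h3
      · by_cases hBT : B = T
        · -- `B = T`, `A ≠ T`
          obtain ⟨φ, a1, a2⟩ := ex_dot A T hA0 hAT
          obtain ⟨ψ, b1, b2⟩ := ex_dot T A hT0 (Ne.symm hAT)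
          have m1 := key φ
          have m2 := key ψ
          rw [hBT, a1, a2, zero_smul, one_smul, zero_smul, zero_add, add_zero] at m1
          rw [hBT, b1, b2, zero_smul, one_smul, one_smul, add_zero] at m2
          refine ⟨m1, ?_⟩
          have h := S.mul_mem m1 m2
          rw [mul_add, p5, p1, zero_add] at h
          have h3 := S.add_mem h m2
          rwa [← add_assoc, h2E, zero_add] at h3
        · -- independent
          have hA' : A ≠ B + T := fun h => hABT (by
            rw [add_assoc, ← h, hdbl])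
          have hB' : B ≠ A + T := fun h => hABT (by
            rw [add_right_comm, ← h, hdbl])
          obtain ⟨φ, a1, a2, a3⟩ := ex_dot3 A B T hA0 hAB hAT hA'
          obtain ⟨ψ, b1, b2, b3⟩ := ex_dot3 B A T hB0 (Ne.symm hAB) hBT hB'
          have m1 := key φ
          have m2 := key ψ
          rw [a1, a2, a3, zero_smul, zero_smul, one_smul, zero_add, add_zero] at m1
          rw [b1, b2, b3, zero_smul, zero_smul, one_smul, zero_add, zero_add] at m2
          exact ⟨m1, m2⟩
  obtain ⟨m12, m21⟩ := hmem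
  refine (Algebra.eq_top_iff).2 fun g => ?_
  have hg : g = (g (1, 0)).1 • (E12 * E21) + (g (1, 0)).2 • E21 + (g (0, 1)).1 • E12 +
      (g (0, 1)).2 • (E21 * E12) := by
    refine LinearMap.ext fun x => ?_
    have hx : x = x.1 • ((1, 0) : U2) + x.2 • ((0, 1) : U2) := by
      ext <;> simp
    conv_lhs => rw [hx, map_add, map_smul, map_smul]
    ext
    · simp [E12, E21, mul_comm]
    · simp [E12, E21, mul_comm]
  rw [hg]
  exact S.add_mem (S.add_mem (S.add_mem (S.smul_mem (S.mul_mem m12 m21) _) (S.smul_mem m21 _))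
    (S.smul_mem m12 _)) (S.smul_mem (S.mul_mem m21 m12) _)

end Pool.Agent.Q187.FG
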